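import Pool.Agent.H57.EZ.Fin

/-!
# [H57 EZ MAIN] `EZ2Stmt`
-/

set_option autoImplicit false

open scoped NumberField
open H88.A4 Pool.Agent.H67.WA Pool.Agent.H12.WM

noncomputable section

namespace H57.EZ

theorem ez2 (K : Type) [Field K] [NumberField K] : H88.WS.EZ2Stmt K := by
  classical
  intro M hM C hC ε hε
  set ε' : ℝ := ε / 5 with hε'
  have hε0 : 0 < ε' := by positivity
  obtain ⟨C1, hC1, h1⟩ := uv2 K M hM C hC
  obtain ⟨C2, hC2, h2⟩ := n_card_w K M hM ε' hε0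
  set D : ℝ := (2 * C ^ 4) ^ 2 with hD
  have hD1 : 1 ≤ D := by
    have : 1 ≤ C ^ 4 := one_le_pow₀ hC
    have : 1 ≤ 2 * C ^ 4 := by linarith
    exact one_le_pow₀ this
  obtain ⟨C3, hC3, h3⟩ := sum_wt K C hC D hD1 ε' hε0
  set d : ℕ := Fintype.card (K →+* ℂ) with hd
  have hdf : (d : ℝ) = Module.finrank ℚ K := by
    rw [hd, NumberField.Embeddings.card]
  refine ⟨C2 * (2 * C ^ 4) ^ ε' * C1 * C3 * (C ^ 2) ^ ε, by positivity, ?_⟩
  intro s t hRg S hS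
  have hC0 : 0 < C := by linarith
  have ht : 0 < t := by
    by_contra h
    push Not at h
    have := hRg.1
    nlinarith
  have hs : 0 < s := lt_of_lt_of_le ht hRg.2
  have hst : 0 < s * t := mul_pos hs ht
  have hCt : 1 ≤ C * t := hRg.1
  have hCs : 1 ≤ C * s := hCt.trans (mul_le_mul_of_nonneg_left hRg.2 hC0.le)
  set X : ℝ := C ^ 2 * (s * t) with hX
  have hXe : X = (C * s) * (C * t) := by rw [hX]; ring
  have hX1 : 1 ≤ X := by
    rw [hXe]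
    exact one_le_mul_of_one_le_of_one_le hCs hCt
  have hX0 : 0 < X := by linarith
  have hXs : C * s ≤ X := by
    rw [hXe]
    exact le_mul_of_one_le_right (by linarith) hCt
  have hXt : C * t ≤ X := by
    rw [hXe]
    exact le_mul_of_one_le_left (by linarith) hCs
  have hstX : s * t ≤ X := by
    rw [hX]
    exact le_mul_of_one_le_left hst.le (one_le_pow₀ hC)
  set Y : ℝ := 2 * C ^ 4 * X ^ 3 with hY
  have hY1 : 1 ≤ Y := by
    have e1 : 1 ≤ C ^ 4 := one_le_pow₀ hC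
    have e2 : 1 ≤ X ^ 3 := one_le_pow₀ hX1
    rw [hY]
    nlinarith [one_le_mul_of_one_le_of_one_le e1 e2]
  set e : 𝓞 K × 𝓞 K × 𝓞 K × 𝓞 K → (𝓞 K × 𝓞 K) × (𝓞 K × 𝓞 K) :=
    fun x => ((x.1, x.2.1), (x.2.2.1, x.2.2.2)) with he
  have hinj : Function.Injective e := by
    rintro ⟨a, b, c, d⟩ ⟨a', b', c', d'⟩ h
    simp only [he, Prod.mk.injEq] at h
    obtain ⟨⟨rfl, rfl⟩, rfl, rfl⟩ := h
    rfl
  set S' := S.image e with hS'
  have hcard : S'.card = S.card := Finset.card_image_of_injective S hinj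
  have hmem : ∀ y ∈ S', Adm M C s t y.1.1 y.1.2 ∧ PQ M C s t y.1.1 y.1.2 y.2.1 y.2.2 := by
    intro y hy
    obtain ⟨x, hx, rfl⟩ := Finset.mem_image.1 hy
    exact hS x hx
  set f : (𝓞 K × 𝓞 K) × (𝓞 K × 𝓞 K) → 𝓞 K := fun y => y.1.2 * y.2.1 ^ 3 + y.1.1 * y.2.2 ^ 3 with hf
  -- the size of `n` at every embedding
  have hsz : ∀ y ∈ S', ∀ φ, sz φ (f y) ≤ wt D s t y.2.1 y.2.2 φ ^ 2 ∧ sz φ (f y) ≤ Y := by
    intro y hy φ
    obtain ⟨hAd, hPQ⟩ := hmem y hy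
    have e1 : sz φ y.1.1 ≤ C * s ^ 3 := hAd.ule φ
    have e2 : sz φ y.1.2 ≤ C * t ^ 3 := hAd.vle φ
    have e3 : sz φ y.2.1 ≤ C * s := hPQ.2.2.1 φ
    have e4 : sz φ y.2.2 ≤ C * t := hPQ.2.2.2.1 φ
    have n1 := sz_nonneg φ y.1.1
    have n2 := sz_nonneg φ y.1.2
    have n3 := sz_nonneg φ y.2.1
    have n4 := sz_nonneg φ y.2.2
    have e5 : sz φ (f y) ≤ sz φ y.1.2 * sz φ y.2.1 ^ 3 + sz φ y.1.1 * sz φ y.2.2 ^ 3 := by
      rw [← sz_pow, ← sz_pow, ← sz_mul, ← sz_mul]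
      simp only [hf]
      unfold sz
      push_cast
      rw [map_add]
      exact norm_add_le _ _
    have e6 : sz φ y.1.2 * sz φ y.2.1 ^ 3 ≤ (C * t ^ 3) * sz φ y.2.1 ^ 3 :=
      mul_le_mul_of_nonneg_right e2 (by positivity)
    have e7 : sz φ y.1.1 * sz φ y.2.2 ^ 3 ≤ (C * s ^ 3) * sz φ y.2.2 ^ 3 :=
      mul_le_mul_of_nonneg_right e1 (by positivity)
    have hCD : C ≤ D := by
      rw [hD]
      have : 1 ≤ C ^ 7 := one_le_pow₀ hC
      nlinarith [mul_le_mul_of_nonneg_left this hC0.le]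
    constructor
    · unfold wt
      rw [Real.sq_sqrt (by positivity)]
      calc sz φ (f y) ≤ (C * t ^ 3) * sz φ y.2.1 ^ 3 + (C * s ^ 3) * sz φ y.2.2 ^ 3 := by linarith
        _ = C * (t ^ 3 * sz φ y.2.1 ^ 3 + s ^ 3 * sz φ y.2.2 ^ 3) := by ring
        _ ≤ _ := mul_le_mul_of_nonneg_right hCD (by positivity)
    · have e8 : sz φ y.2.1 ^ 3 ≤ (C * s) ^ 3 := pow_le_pow_left₀ n3 e3 3
      have e9 : sz φ y.2.2 ^ 3 ≤ (C * t) ^ 3 := pow_le_pow_left₀ n4 e4 3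
      have e10 : (C * t ^ 3) * sz φ y.2.1 ^ 3 ≤ (C * t ^ 3) * (C * s) ^ 3 := mul_le_mul_of_nonneg_left e8 (by positivity)
      have e11 : (C * s ^ 3) * sz φ y.2.2 ^ 3 ≤ (C * s ^ 3) * (C * t) ^ 3 := mul_le_mul_of_nonneg_left e9 (by positivity)
      calc sz φ (f y) ≤ (C * t ^ 3) * (C * s) ^ 3 + (C * s ^ 3) * (C * t) ^ 3 := by linarith
        _ = 2 * C ^ 4 * (s * t) ^ 3 := by ring
        _ ≤ 2 * C ^ 4 * X ^ 3 := mul_le_mul_of_nonneg_left (pow_le_pow_left₀ hst.le hstX 3) (by positivity)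
  have key := card_two S' f (fun x => C2 * (X * Y) ^ ε' * ∏ φ, wt D s t x.1 x.2 φ)
    (fun x => C1 * (1 + ∏ φ, mn s t x.1 x.2 φ)) ?_ ?_
  · have hsum := h3 s t hRg (S'.image Prod.snd) (by
      intro x hx
      obtain ⟨y, hy, rfl⟩ := Finset.mem_image.1 hx
      obtain ⟨_, hPQ⟩ := hmem y hy
      exact ⟨hPQ.1, hPQ.2.1, hPQ.2.2.1, hPQ.2.2.2.1⟩)
    rw [← hcard]
    refine key.trans ?_
    have e1 : ∑ x ∈ S'.image Prod.snd, (C2 * (X * Y) ^ ε' * ∏ φ, wt D s t x.1 x.2 φ) *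
        (C1 * (1 + ∏ φ, mn s t x.1 x.2 φ)) = C2 * (X * Y) ^ ε' * C1 *
        ∑ x ∈ S'.image Prod.snd, (∏ φ, wt D s t x.1 x.2 φ) * (1 + ∏ φ, mn s t x.1 x.2 φ) := by
      rw [Finset.mul_sum]
      refine Finset.sum_congr rfl fun x _ => ?_
      ring
    rw [e1]
    have e2 : (X * Y) ^ ε' = (2 * C ^ 4) ^ ε' * (X ^ ε') ^ 4 := by
      have e3 : X * Y = (2 * C ^ 4) * X ^ 4 := by rw [hY]; ring
      rw [e3, Real.mul_rpow (by positivity) (by positivity)]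
      congr 1
      rw [← Real.rpow_natCast X 4, ← Real.rpow_mul hX0.le, ← Real.rpow_natCast (X ^ ε') 4, ← Real.rpow_mul hX0.le]
      congr 1
      ring
    have e4 : ((s * t) ^ 2 * Real.sqrt (s * t)) ^ d = (s * t) ^ (5 / 2 * (Module.finrank ℚ K : ℝ)) := by
      have e5 : (s * t) ^ 2 * Real.sqrt (s * t) = (s * t) ^ (5 / 2 : ℝ) := by
        rw [Real.sqrt_eq_rpow, ← Real.rpow_natCast (s * t) 2, ← Real.rpow_add hst]
        norm_num
      rw [e5, ← Real.rpow_natCast, ← Real.rpow_mul hst.le, hdf]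
    have e6 : X ^ ε' * (X ^ ε') ^ 4 = (C ^ 2) ^ ε * (s * t) ^ ε := by
      rw [← pow_succ', ← Real.rpow_natCast (X ^ ε') (4 + 1), ← Real.rpow_mul hX0.le]
      have e7 : ε' * ((4 + 1 : ℕ) : ℝ) = ε := by
        rw [hε']
        push_cast
        ring
      rw [e7, hX, Real.mul_rpow (by positivity) hst.le]
    calc C2 * (X * Y) ^ ε' * C1 *
          ∑ x ∈ S'.image Prod.snd, (∏ φ, wt D s t x.1 x.2 φ) * (1 + ∏ φ, mn s t x.1 x.2 φ)
        ≤ C2 * (X * Y) ^ ε' * C1 * (C3 * X ^ ε' * ((s * t) ^ 2 * Real.sqrt (s * t)) ^ d) :=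
          mul_le_mul_of_nonneg_left hsum (by positivity)
      _ = C2 * (2 * C ^ 4) ^ ε' * C1 * C3 * (X ^ ε' * (X ^ ε') ^ 4) *
          (s * t) ^ (5 / 2 * (Module.finrank ℚ K : ℝ)) := by
        rw [e2, e4]
        ring
      _ = C2 * (2 * C ^ 4) ^ ε' * C1 * C3 * (C ^ 2) ^ ε *
          ((s * t) ^ (5 / 2 * (Module.finrank ℚ K : ℝ)) * (s * t) ^ ε) := by
        rw [e6]
        ring
      _ = _ := by rw [← Real.rpow_add hst]
  · intro x hx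
    obtain ⟨y0, hy0, rfl⟩ := Finset.mem_image.1 hx
    obtain ⟨_, hPQ0⟩ := hmem y0 hy0
    have hnmle : ∀ y ∈ S', y.2 = y0.2 → nm ((f y : 𝓞 K) : K) ≤ (∏ φ, wt D s t y0.2.1 y0.2.2 φ) ^ 2 := by
      intro y hy hy2
      unfold nm
      rw [← Finset.prod_pow]
      refine Finset.prod_le_prod (fun _ _ => norm_nonneg _) fun φ _ => ?_
      rw [← hy2]
      exact (hsz y hy φ).1
    have hW1 : 1 ≤ ∏ φ, wt D s t y0.2.1 y0.2.2 φ := by
      have e1 := hnmle y0 hy0 rfl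
      have e2 : (1 : ℝ) ≤ nm ((f y0 : 𝓞 K) : K) := by
        rw [nm_eq]
        have h4 : Ideal.absNorm (Ideal.span {f y0}) ≠ 0 := by
          rw [Ne, Ideal.absNorm_eq_zero_iff, Ideal.span_singleton_eq_bot]
          exact hPQ0.2.2.2.2.2.1
        exact_mod_cast Nat.one_le_iff_ne_zero.2 h4
      have e3 : 0 ≤ ∏ φ, wt D s t y0.2.1 y0.2.2 φ := Finset.prod_nonneg fun φ _ => wt_nonneg _ _ _ _ _ _
      by_contra hlt
      rw [not_le] at hlt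
      have e4 : (∏ φ, wt D s t y0.2.1 y0.2.2 φ) ^ 2 < 1 := by nlinarith
      linarith
    refine h2 X Y (∏ φ, wt D s t y0.2.1 y0.2.2 φ) hX1 hY1 hW1 y0.2.1 y0.2.2 hPQ0.1 hPQ0.2.1
      (fun φ => (hPQ0.2.2.1 φ).trans hXs) (fun φ => (hPQ0.2.2.2.1 φ).trans hXt) _ ?_
    intro n hn
    obtain ⟨y, hy, rfl⟩ := Finset.mem_image.1 hn
    rw [Finset.mem_filter] at hy
    obtain ⟨_, hPQ⟩ := hmem y hy.1
    obtain ⟨_, _, _, _, _, hn0, b0, g1, g2, m, e1, e2, e3, e4⟩ := hPQ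
    refine ⟨hn0, fun φ => (hsz y hy.1 φ).2, hnmle y hy.1 hy.2, b0, g1, g2, m, e1, e2, ?_, ?_⟩
    · rw [← hy.2]
      exact e3
    · rw [← hy.2]
      exact e4
  · intro x hx n
    obtain ⟨y0, hy0, rfl⟩ := Finset.mem_image.1 hx
    obtain ⟨_, hPQ0⟩ := hmem y0 hy0
    have hc : (S'.filter fun y => y.2 = y0.2 ∧ f y = n).card =
        ((S'.filter fun y => y.2 = y0.2 ∧ f y = n).image Prod.fst).card := by
      rw [Finset.card_image_of_injOn]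
      intro y hy z hz hyz
      simp only [Finset.coe_filter, Set.mem_setOf_eq] at hy hz
      exact Prod.ext hyz (hy.2.1.trans hz.2.1.symm)
    rw [hc]
    refine h1 s t hs ht y0.2.1 y0.2.2 n hPQ0.1 hPQ0.2.1 hPQ0.2.2.2.2.1 _ ?_
    intro z hz
    obtain ⟨y, hy, rfl⟩ := Finset.mem_image.1 hz
    rw [Finset.mem_filter] at hy
    obtain ⟨hAd, _⟩ := hmem y hy.1
    refine ⟨hAd.ule, hAd.vle, ?_⟩
    rw [← hy.2.1]
    exact hy.2.2

end H57.EZ
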