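import Pool.Agent.H67.WA.Cnt
import Pool.Agent.H88.A4.Iface

/-!
# [H57 EZ UV] number of `(u, v)` with `v p ^ 3 + u q ^ 3 = n`, sizes per embedding
-/

set_option autoImplicit false

open scoped NumberField
open H88.A4 Pool.Agent.H67.WA

noncomputable section

namespace H57.EZ

variable {K : Type} [Field K] [NumberField K]

/-- `min (s ^ 3 / |p|_φ ^ 3) (t ^ 3 / |q|_φ ^ 3)` -/
def mn (s t : ℝ) (p q : 𝓞 K) (φ : K →+* ℂ) : ℝ := min (s ^ 3 / sz φ p ^ 3) (t ^ 3 / sz φ q ^ 3)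

theorem sz_mul (φ : K →+* ℂ) (x y : 𝓞 K) : sz φ (x * y) = sz φ x * sz φ y := by
  unfold sz
  rw [show ((x * y : 𝓞 K) : K) = (x : K) * (y : K) from map_mul _ _ _, map_mul, norm_mul]

theorem sz_pow (φ : K →+* ℂ) (x : 𝓞 K) (k : ℕ) : sz φ (x ^ k) = sz φ x ^ k := by
  unfold sz
  rw [show ((x ^ k : 𝓞 K) : K) = (x : K) ^ k from map_pow _ _ _, map_pow, norm_pow]

theorem sz_pos (φ : K →+* ℂ) {x : 𝓞 K} (hx : x ≠ 0) : 0 < sz φ x := by
  unfold sz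
  rw [norm_pos_iff]
  intro h
  apply hx
  have h1 := (map_eq_zero φ).1 h
  exact NumberField.RingOfIntegers.ext (h1.trans (map_zero (algebraMap (𝓞 K) K)).symm)

theorem sz_sub_le (φ : K →+* ℂ) (x y : 𝓞 K) : sz φ (x - y) ≤ sz φ x + sz φ y := by
  unfold sz
  rw [show ((x - y : 𝓞 K) : K) = (x : K) - (y : K) from map_sub _ _ _, map_sub]
  exact norm_sub_le _ _

theorem sz_nat (φ : K →+* ℂ) (m : ℕ) : sz φ (m : 𝓞 K) = m := by
  unfold sz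
  rw [show (((m : 𝓞 K)) : K) = (m : K) from map_natCast _ _, map_natCast]
  simp

theorem uv2 (K : Type) [Field K] [NumberField K] (M : ℕ) (hM : M ≠ 0) (C : ℝ) (hC : 1 ≤ C) : ∃ C' : ℝ, 0 < C' ∧
    ∀ s t : ℝ, 0 < s → 0 < t → ∀ p q n : 𝓞 K, p ≠ 0 → q ≠ 0 → (M : 𝓞 K) ∈ Ideal.span {p, q} →
      ∀ S : Finset (𝓞 K × 𝓞 K), (∀ x ∈ S, Bd (C * s ^ 3) x.1 ∧ Bd (C * t ^ 3) x.2 ∧ x.2 * p ^ 3 + x.1 * q ^ 3 = n) →
      (S.card : ℝ) ≤ C' * (1 + ∏ φ : K →+* ℂ, mn s t p q φ) := by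
  classical
  obtain ⟨C₁, hC₁, h1⟩ := f1d K
  set D : ℝ := 2 * C * (M : ℝ) ^ 5 with hD
  have hM1 : (1 : ℝ) ≤ M := by exact_mod_cast Nat.one_le_iff_ne_zero.2 hM
  have hD1 : 1 ≤ D := by
    have h2 : (1 : ℝ) ≤ (M : ℝ) ^ 5 := one_le_pow₀ hM1
    nlinarith
  refine ⟨C₁ * D ^ Fintype.card (K →+* ℂ), by positivity, ?_⟩
  intro s t hs ht p q n hp hq hMpq S hS
  have hprod : 0 ≤ ∏ φ : K →+* ℂ, mn s t p q φ := by
    refine Finset.prod_nonneg fun φ _ => ?_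
    unfold mn
    have := sz_nonneg φ p
    have := sz_nonneg φ q
    positivity
  rcases S.eq_empty_or_nonempty with rfl | ⟨x0, hx0⟩
  · rw [Finset.card_empty, Nat.cast_zero]
    positivity
  obtain ⟨a, b, hab⟩ := Ideal.mem_span_pair.1 hMpq
  obtain ⟨α, β, hαβ⟩ : ∃ α β : 𝓞 K, (M : 𝓞 K) ^ 5 = α * p ^ 3 + β * q ^ 3 := by
    refine ⟨a ^ 5 * p ^ 2 + 5 * a ^ 4 * p * (b * q) + 10 * a ^ 3 * (b * q) ^ 2,
      10 * (a * p) ^ 2 * b ^ 3 + 5 * (a * p) * b ^ 4 * q + b ^ 5 * q ^ 2, ?_⟩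
    rw [← hab]
    ring
  set κ : 𝓞 K × 𝓞 K → 𝓞 K := fun x => α * (x.1 - x0.1) - β * (x.2 - x0.2) with hκ
  have hp3 : ∀ x ∈ S, p ^ 3 * κ x = (M : 𝓞 K) ^ 5 * (x.1 - x0.1) := by
    intro x hx
    have e1 := (hS x hx).2.2
    have e2 := (hS x0 hx0).2.2
    simp only [hκ]
    rw [hαβ]
    linear_combination (-β) * e1 + β * e2
  have hq3 : ∀ x ∈ S, q ^ 3 * κ x = -((M : 𝓞 K) ^ 5 * (x.2 - x0.2)) := by
    intro x hx
    have e1 := (hS x hx).2.2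
    have e2 := (hS x0 hx0).2.2
    simp only [hκ]
    rw [hαβ]
    linear_combination α * e1 - α * e2
  have hM0 : (M : 𝓞 K) ^ 5 ≠ 0 := pow_ne_zero _ (Nat.cast_ne_zero.2 hM)
  have hinj : Set.InjOn κ (S : Set (𝓞 K × 𝓞 K)) := by
    intro x hx y hy hxy
    have e1 := hp3 x hx
    have e2 := hp3 y hy
    have e3 := hq3 x hx
    have e4 := hq3 y hy
    rw [hxy] at e1 e3
    have e5 : x.1 - x0.1 = y.1 - x0.1 := mul_left_cancel₀ hM0 (e1.symm.trans e2)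
    have e6 : x.2 - x0.2 = y.2 - x0.2 := mul_left_cancel₀ hM0 (neg_injective (e3.symm.trans e4))
    exact Prod.ext (sub_left_injective e5) (sub_left_injective e6)
  have hcard : S.card = (S.image κ).card := (Finset.card_image_of_injOn hinj).symm
  have h2 := h1 ⊤ top_ne_bot (fun φ => D * mn s t p q φ) (fun φ => by
    unfold mn
    have := sz_nonneg φ p
    have := sz_nonneg φ q
    positivity) (S.image κ) (by
    intro x' hx' y' hy'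
    obtain ⟨x, hx, rfl⟩ := Finset.mem_image.1 hx'
    obtain ⟨y, hy, rfl⟩ := Finset.mem_image.1 hy'
    refine ⟨trivial, fun φ => ?_⟩
    have hpp := sz_pos φ hp
    have hqq := sz_pos φ hq
    have e1 : p ^ 3 * (κ x - κ y) = (M : 𝓞 K) ^ 5 * (x.1 - y.1) := by
      rw [mul_sub, hp3 x hx, hp3 y hy]
      ring
    have e2 : q ^ 3 * (κ x - κ y) = (M : 𝓞 K) ^ 5 * (y.2 - x.2) := by
      rw [mul_sub, hq3 x hx, hq3 y hy]
      ring
    have e3 := congrArg (sz φ) e1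
    have e4 := congrArg (sz φ) e2
    rw [sz_mul, sz_mul, sz_pow, sz_pow, sz_nat] at e3 e4
    have b1 : sz φ (x.1 - y.1) ≤ 2 * C * s ^ 3 := by
      have c1 := (hS x hx).1 φ
      have c2 := (hS y hy).1 φ
      have c3 := sz_sub_le φ x.1 y.1
      have c4 : sz φ x.1 ≤ C * s ^ 3 := c1
      have c5 : sz φ y.1 ≤ C * s ^ 3 := c2
      linarith
    have b2 : sz φ (y.2 - x.2) ≤ 2 * C * t ^ 3 := by
      have c1 := (hS x hx).2.1 φ
      have c2 := (hS y hy).2.1 φ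
      have c3 := sz_sub_le φ y.2 x.2
      have c4 : sz φ x.2 ≤ C * t ^ 3 := c1
      have c5 : sz φ y.2 ≤ C * t ^ 3 := c2
      linarith
    have hM5 : (0 : ℝ) ≤ (M : ℝ) ^ 5 := by positivity
    unfold mn
    rw [mul_min_of_nonneg _ _ (by linarith : 0 ≤ D)]
    refine le_min ?_ ?_
    · rw [← mul_div_assoc, le_div_iff₀ (pow_pos hpp 3)]
      calc sz φ (κ x - κ y) * sz φ p ^ 3 = (M : ℝ) ^ 5 * sz φ (x.1 - y.1) := by rw [← e3]; ring
        _ ≤ (M : ℝ) ^ 5 * (2 * C * s ^ 3) := mul_le_mul_of_nonneg_left b1 hM5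
        _ = D * s ^ 3 := by rw [hD]; ring
    · rw [← mul_div_assoc, le_div_iff₀ (pow_pos hqq 3)]
      calc sz φ (κ x - κ y) * sz φ q ^ 3 = (M : ℝ) ^ 5 * sz φ (y.2 - x.2) := by rw [← e4]; ring
        _ ≤ (M : ℝ) ^ 5 * (2 * C * t ^ 3) := mul_le_mul_of_nonneg_left b2 hM5
        _ = D * t ^ 3 := by rw [hD]; ring)
  have h3 : ni (⊤ : Ideal (𝓞 K)) = 1 := by
    unfold ni
    rw [Ideal.absNorm_top, Nat.cast_one]
  rw [h3, div_one] at h2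
  rw [hcard]
  refine h2.trans ?_
  have h4 : vol (fun φ : K →+* ℂ => D * mn s t p q φ) = D ^ Fintype.card (K →+* ℂ) * ∏ φ : K →+* ℂ, mn s t p q φ := by
    unfold vol
    rw [Finset.prod_mul_distrib, Finset.prod_const, Finset.card_univ]
  rw [h4]
  have h5 : 1 ≤ D ^ Fintype.card (K →+* ℂ) := one_le_pow₀ hD1
  have h6 : 0 < C₁ := by linarith
  nlinarith [mul_le_mul_of_nonneg_left h5 h6.le]

end H57.EZ
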