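import Pool.Agent.H57.EZ.Nw
import Pool.Agent.H57.EZ.Uv
import Pool.Agent.H67.WA.Dy
import Pool.Agent.H88.WS.Iface

/-!
# [H57 EZ FIN] `EZ2Stmt`: the case `E = 0` with a saving
-/

set_option autoImplicit false

open scoped NumberField
open H88.A4 Pool.Agent.H67.WA Pool.Agent.H12.WM

noncomputable section

namespace H57.EZ

/-- two steps of fibring with a bound which depends on the point of the base -/
theorem card_two {α β γ : Type} [DecidableEq α] [DecidableEq β] [DecidableEq γ]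
    (S : Finset (β × α)) (f : β × α → γ) (A g : α → ℝ)
    (h1 : ∀ x ∈ S.image Prod.snd, (((S.filter fun y => y.2 = x).image f).card : ℝ) ≤ A x)
    (h2 : ∀ x ∈ S.image Prod.snd, ∀ n, ((S.filter fun y => y.2 = x ∧ f y = n).card : ℝ) ≤ g x) :
    (S.card : ℝ) ≤ ∑ x ∈ S.image Prod.snd, A x * g x := by
  have e1 : (S.card : ℝ) = ∑ x ∈ S.image Prod.snd, ((S.filter fun y => y.2 = x).card : ℝ) := by
    rw [Finset.card_eq_sum_card_image Prod.snd S]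
    push_cast
    rfl
  rw [e1]
  refine Finset.sum_le_sum fun x hx => ?_
  have e2 : ((S.filter fun y => y.2 = x).card : ℝ) =
      ∑ n ∈ (S.filter fun y => y.2 = x).image f,
        (((S.filter fun y => y.2 = x).filter fun y => f y = n).card : ℝ) := by
    rw [Finset.card_eq_sum_card_image f (S.filter fun y => y.2 = x)]
    push_cast
    rfl
  rw [e2]
  have hg : 0 ≤ g x := by
    obtain ⟨y, hy, rfl⟩ := Finset.mem_image.1 hx
    exact (Nat.cast_nonneg _).trans (h2 y.2 hx (f y))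
  calc ∑ n ∈ (S.filter fun y => y.2 = x).image f,
        (((S.filter fun y => y.2 = x).filter fun y => f y = n).card : ℝ)
      ≤ ∑ n ∈ (S.filter fun y => y.2 = x).image f, g x := by
        refine Finset.sum_le_sum fun n _ => ?_
        rw [Finset.filter_filter]
        exact h2 x hx n
    _ = (((S.filter fun y => y.2 = x).image f).card : ℝ) * g x := by
        rw [Finset.sum_const, nsmul_eq_mul]
    _ ≤ A x * g x := mul_le_mul_of_nonneg_right (h1 x hx) hg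

/-- the local bound, first part -/
theorem loc1 {C D s t x y η η' : ℝ} (hC : 1 ≤ C) (hD : 1 ≤ D) (hs : 0 < s) (ht : 0 < t) (hx : 0 < x) (hy : 0 < y)
    (hη : η ≤ 2 * x) (hη' : η' ≤ 2 * y) (hη0 : 0 < η) (hη0' : 0 < η') (hxs : x ≤ C * s) (hyt : y ≤ C * t) :
    η * η' * Real.sqrt (D * (t ^ 3 * x ^ 3 + s ^ 3 * y ^ 3)) ≤ 8 * D * C ^ 4 * ((s * t) ^ 2 * Real.sqrt (s * t)) := by
  have hst : 0 < s * t := mul_pos hs ht
  have h1 : η * η' ≤ 4 * C ^ 2 * (s * t) := by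
    calc η * η' ≤ (2 * (C * s)) * (2 * (C * t)) :=
          mul_le_mul (by linarith) (by linarith) hη0'.le (by positivity)
      _ = _ := by ring
  have h2 : D * (t ^ 3 * x ^ 3 + s ^ 3 * y ^ 3) ≤ (2 * D * C ^ 2 * (s * t)) ^ 2 * (s * t) := by
    have h3 : x ^ 3 ≤ (C * s) ^ 3 := pow_le_pow_left₀ hx.le hxs 3
    have h4 : y ^ 3 ≤ (C * t) ^ 3 := pow_le_pow_left₀ hy.le hyt 3
    have h5 : t ^ 3 * x ^ 3 + s ^ 3 * y ^ 3 ≤ 2 * C ^ 3 * (s * t) ^ 3 := by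
      have h6 : t ^ 3 * x ^ 3 ≤ t ^ 3 * (C * s) ^ 3 := mul_le_mul_of_nonneg_left h3 (by positivity)
      have h7 : s ^ 3 * y ^ 3 ≤ s ^ 3 * (C * t) ^ 3 := mul_le_mul_of_nonneg_left h4 (by positivity)
      nlinarith
    have h8 : D * (2 * C ^ 3) ≤ (2 * D * C ^ 2) ^ 2 := by
      have h9 : 1 ≤ D * C := one_le_mul_of_one_le_of_one_le hD hC
      have h10 : 0 < D * C ^ 3 := by positivity
      nlinarith [mul_le_mul_of_nonneg_left h9 h10.le]
    calc D * (t ^ 3 * x ^ 3 + s ^ 3 * y ^ 3) ≤ D * (2 * C ^ 3 * (s * t) ^ 3) :=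
          mul_le_mul_of_nonneg_left h5 (by linarith)
      _ = D * (2 * C ^ 3) * (s * t) ^ 3 := by ring
      _ ≤ (2 * D * C ^ 2) ^ 2 * (s * t) ^ 3 := mul_le_mul_of_nonneg_right h8 (by positivity)
      _ = _ := by ring
  have h3 : Real.sqrt (D * (t ^ 3 * x ^ 3 + s ^ 3 * y ^ 3)) ≤ 2 * D * C ^ 2 * (s * t) * Real.sqrt (s * t) := by
    refine (Real.sqrt_le_sqrt h2).trans (le_of_eq ?_)
    rw [Real.sqrt_mul (by positivity), Real.sqrt_sq (by positivity)]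
  calc η * η' * Real.sqrt (D * (t ^ 3 * x ^ 3 + s ^ 3 * y ^ 3))
      ≤ (4 * C ^ 2 * (s * t)) * (2 * D * C ^ 2 * (s * t) * Real.sqrt (s * t)) :=
        mul_le_mul h1 h3 (Real.sqrt_nonneg _) (by positivity)
    _ = _ := by ring

theorem loc2a {C D s t x y η η' : ℝ} (hC : 1 ≤ C) (hD : 1 ≤ D) (hs : 0 < s) (ht : 0 < t) (hx : 0 < x) (hy : 0 < y)
    (hη : η ≤ 2 * x) (hη' : η' ≤ 2 * y) (hη0 : 0 < η) (hη0' : 0 < η') (hyt : y ≤ C * t)
    (hab : t * x ≤ s * y) :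
    η * η' * (Real.sqrt (D * (t ^ 3 * x ^ 3 + s ^ 3 * y ^ 3)) * (t ^ 3 / y ^ 3)) ≤
      8 * D * C ^ 4 * ((s * t) ^ 2 * Real.sqrt (s * t)) := by
  have hst : 0 < s * t := mul_pos hs ht
  set b : ℝ := s * y with hb
  have hb0 : 0 < b := mul_pos hs hy
  have h1 : η * η' ≤ 4 * (t * x) * b / (s * t) := by
    rw [le_div_iff₀ hst]
    have h2 : η * η' ≤ (2 * x) * (2 * y) := mul_le_mul hη hη' hη0'.le (by positivity)
    calc η * η' * (s * t) ≤ (2 * x) * (2 * y) * (s * t) := mul_le_mul_of_nonneg_right h2 hst.le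
      _ = _ := by rw [hb]; ring
  have h2 : D * (t ^ 3 * x ^ 3 + s ^ 3 * y ^ 3) ≤ (2 * D * b) ^ 2 * b := by
    have h3 : (t * x) ^ 3 ≤ b ^ 3 := pow_le_pow_left₀ (by positivity) hab 3
    have h4 : t ^ 3 * x ^ 3 + s ^ 3 * y ^ 3 ≤ 2 * b ^ 3 := by
      have e1 : t ^ 3 * x ^ 3 = (t * x) ^ 3 := by ring
      have e2 : s ^ 3 * y ^ 3 = b ^ 3 := by rw [hb]; ring
      linarith
    calc D * (t ^ 3 * x ^ 3 + s ^ 3 * y ^ 3) ≤ D * (2 * b ^ 3) := mul_le_mul_of_nonneg_left h4 (by linarith)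
      _ ≤ (2 * D * b) ^ 2 * b := by
        have h5 : 0 < D * b ^ 3 := by positivity
        nlinarith [mul_le_mul_of_nonneg_left hD h5.le]
  have h3 : Real.sqrt (D * (t ^ 3 * x ^ 3 + s ^ 3 * y ^ 3)) ≤ 2 * D * b * Real.sqrt b := by
    refine (Real.sqrt_le_sqrt h2).trans (le_of_eq ?_)
    rw [Real.sqrt_mul (by positivity), Real.sqrt_sq (by positivity)]
  have h4 : t ^ 3 / y ^ 3 = (s * t) ^ 3 / b ^ 3 := by
    rw [hb]
    field_simp
  have h5 : Real.sqrt b ≤ C * Real.sqrt (s * t) := by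
    have h6 : b ≤ C ^ 2 * (s * t) := by
      have h7 : s * y ≤ s * (C * t) := mul_le_mul_of_nonneg_left hyt hs.le
      have h8 : C * (s * t) ≤ C ^ 2 * (s * t) := mul_le_mul_of_nonneg_right (by nlinarith) hst.le
      rw [hb]
      linarith
    refine (Real.sqrt_le_sqrt h6).trans (le_of_eq ?_)
    rw [Real.sqrt_mul (by positivity), Real.sqrt_sq (by positivity)]
  have hsb : Real.sqrt b * Real.sqrt b = b := Real.mul_self_sqrt hb0.le
  calc η * η' * (Real.sqrt (D * (t ^ 3 * x ^ 3 + s ^ 3 * y ^ 3)) * (t ^ 3 / y ^ 3))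
      ≤ (4 * (t * x) * b / (s * t)) * ((2 * D * b * Real.sqrt b) * ((s * t) ^ 3 / b ^ 3)) := by
        rw [h4]
        exact mul_le_mul h1 (mul_le_mul_of_nonneg_right h3 (by positivity)) (by positivity) (by positivity)
    _ = 8 * D * (s * t) ^ 2 * ((t * x) * Real.sqrt b / b) := by
        field_simp
        ring
    _ ≤ 8 * D * (s * t) ^ 2 * Real.sqrt b := by
        refine mul_le_mul_of_nonneg_left ?_ (by positivity)
        rw [div_le_iff₀ hb0]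
        nlinarith [mul_le_mul_of_nonneg_right hab (Real.sqrt_nonneg b)]
    _ ≤ 8 * D * (s * t) ^ 2 * (C * Real.sqrt (s * t)) := mul_le_mul_of_nonneg_left h5 (by positivity)
    _ ≤ 8 * D * C ^ 4 * ((s * t) ^ 2 * Real.sqrt (s * t)) := by
        have h9 : C ≤ C ^ 4 := by
          calc C = C ^ 1 := (pow_one C).symm
            _ ≤ C ^ 4 := pow_le_pow_right₀ hC (by norm_num)
        have h10 : 0 ≤ 8 * D * ((s * t) ^ 2 * Real.sqrt (s * t)) := by positivity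
        nlinarith [mul_le_mul_of_nonneg_right h9 h10]

/-- the local bound, second part -/
theorem loc2 {C D s t x y η η' : ℝ} (hC : 1 ≤ C) (hD : 1 ≤ D) (hs : 0 < s) (ht : 0 < t) (hx : 0 < x) (hy : 0 < y)
    (hη : η ≤ 2 * x) (hη' : η' ≤ 2 * y) (hη0 : 0 < η) (hη0' : 0 < η') (hxs : x ≤ C * s) (hyt : y ≤ C * t) :
    η * η' * (Real.sqrt (D * (t ^ 3 * x ^ 3 + s ^ 3 * y ^ 3)) * min (s ^ 3 / x ^ 3) (t ^ 3 / y ^ 3)) ≤
      8 * D * C ^ 4 * ((s * t) ^ 2 * Real.sqrt (s * t)) := by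
  rcases le_total (t * x) (s * y) with h | h
  · refine le_trans ?_ (loc2a hC hD hs ht hx hy hη hη' hη0 hη0' hyt h)
    refine mul_le_mul_of_nonneg_left ?_ (by positivity)
    exact mul_le_mul_of_nonneg_left (min_le_right _ _) (Real.sqrt_nonneg _)
  · have h1 := loc2a hC hD ht hs hy hx hη' hη hη0' hη0 hxs h
    have e1 : η' * η * (Real.sqrt (D * (s ^ 3 * y ^ 3 + t ^ 3 * x ^ 3)) * (s ^ 3 / x ^ 3)) =
        η * η' * (Real.sqrt (D * (t ^ 3 * x ^ 3 + s ^ 3 * y ^ 3)) * (s ^ 3 / x ^ 3)) := by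
      rw [add_comm (s ^ 3 * y ^ 3), mul_comm η' η]
    rw [e1, mul_comm t s] at h1
    refine le_trans ?_ h1
    refine mul_le_mul_of_nonneg_left ?_ (by positivity)
    exact mul_le_mul_of_nonneg_left (min_le_left _ _) (Real.sqrt_nonneg _)

/-- the weight of `(p, q)` -/
def wt {K : Type} [Field K] [NumberField K] (D s t : ℝ) (p q : 𝓞 K) (φ : K →+* ℂ) : ℝ :=
  Real.sqrt (D * (t ^ 3 * sz φ p ^ 3 + s ^ 3 * sz φ q ^ 3))

theorem wt_nonneg {K : Type} [Field K] [NumberField K] (D s t : ℝ) (p q : 𝓞 K) (φ : K →+* ℂ) : 0 ≤ wt D s t p q φ :=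
  Real.sqrt_nonneg _

theorem mn_nonneg {K : Type} [Field K] [NumberField K] {s t : ℝ} (hs : 0 < s) (ht : 0 < t) (p q : 𝓞 K) (φ : K →+* ℂ) :
    0 ≤ mn s t p q φ := by
  unfold mn
  have := sz_nonneg φ p
  have := sz_nonneg φ q
  positivity

/-- an embedding of a nonzero integer is not too small -/
theorem sz_low {K : Type} [Field K] [NumberField K] {X : ℝ} (hX : 1 ≤ X) {p : 𝓞 K} (hp : p ≠ 0) (h : ∀ φ, sz φ p ≤ X)
    (φ : K →+* ℂ) : (X ^ Fintype.card (K →+* ℂ))⁻¹ ≤ sz φ p := by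
  classical
  have h1 : 1 ≤ ∏ ψ : K →+* ℂ, sz ψ p := by
    have h2 : nz p = H88.A4.nm (p : K) := nz_def p
    have h3 : ∏ ψ : K →+* ℂ, sz ψ p = nm (p : K) := h2
    rw [h3, nm_eq]
    have h4 : Ideal.absNorm (Ideal.span {p}) ≠ 0 := by
      rw [Ne, Ideal.absNorm_eq_zero_iff, Ideal.span_singleton_eq_bot]
      exact hp
    exact_mod_cast Nat.one_le_iff_ne_zero.2 h4
  rw [← Finset.mul_prod_erase Finset.univ (fun ψ => sz ψ p) (Finset.mem_univ φ)] at h1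
  have h5 : ∏ ψ ∈ Finset.univ.erase φ, sz ψ p ≤ X ^ Fintype.card (K →+* ℂ) := by
    calc ∏ ψ ∈ Finset.univ.erase φ, sz ψ p ≤ ∏ ψ ∈ Finset.univ.erase φ, X :=
          Finset.prod_le_prod (fun _ _ => sz_nonneg _ _) fun ψ _ => h ψ
      _ = X ^ (Finset.univ.erase φ).card := by rw [Finset.prod_const]
      _ ≤ X ^ Fintype.card (K →+* ℂ) := pow_le_pow_right₀ hX (Finset.card_le_univ _)
  have hX0 : 0 < X ^ Fintype.card (K →+* ℂ) := by positivity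
  rw [inv_le_iff_one_le_mul₀ hX0]
  calc (1 : ℝ) ≤ sz φ p * ∏ ψ ∈ Finset.univ.erase φ, sz ψ p := h1
    _ ≤ sz φ p * X ^ Fintype.card (K →+* ℂ) := mul_le_mul_of_nonneg_left h5 (sz_nonneg _ _)

theorem sum_wt (K : Type) [Field K] [NumberField K] (C : ℝ) (hC : 1 ≤ C) (D : ℝ) (hD : 1 ≤ D) (ε : ℝ) (hε : 0 < ε) :
    ∃ C' : ℝ, 0 < C' ∧ ∀ s t : ℝ, Rg C s t → ∀ T : Finset (𝓞 K × 𝓞 K),
      (∀ x ∈ T, x.1 ≠ 0 ∧ x.2 ≠ 0 ∧ Bd (C * s) x.1 ∧ Bd (C * t) x.2) →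
      ∑ x ∈ T, (∏ φ, wt D s t x.1 x.2 φ) * (1 + ∏ φ, mn s t x.1 x.2 φ) ≤
        C' * (C ^ 2 * (s * t)) ^ ε * ((s * t) ^ 2 * Real.sqrt (s * t)) ^ Fintype.card (K →+* ℂ) := by
  classical
  obtain ⟨C₁, hC₁, h1⟩ := f1n K
  obtain ⟨C₂, hC₂, h2⟩ := dy (κ := (K →+* ℂ) ⊕ (K →+* ℂ)) hε (Fintype.card (K →+* ℂ))
  set d : ℕ := Fintype.card (K →+* ℂ) with hd
  refine ⟨C₂ * (2 * C₁ ^ 2 * (8 * D * C ^ 4) ^ d), by positivity, ?_⟩
  intro s t hRg T hT
  have hC0 : 0 < C := by linarith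
  have ht : 0 < t := by
    by_contra h
    push Not at h
    have := hRg.1
    nlinarith
  have hs : 0 < s := lt_of_lt_of_le ht hRg.2
  have hst : 0 < s * t := mul_pos hs ht
  have hCt : 1 ≤ C * t := hRg.1
  have hCs : 1 ≤ C * s := hCt.trans (mul_le_mul_of_nonneg_left hRg.2 hC0.le)
  set X : ℝ := C ^ 2 * (s * t) with hX
  have hXe : X = (C * s) * (C * t) := by rw [hX]; ring
  have hX1 : 1 ≤ X := by
    rw [hXe]
    exact one_le_mul_of_one_le_of_one_le hCs hCt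
  have hXs : C * s ≤ X := by
    rw [hXe]
    exact le_mul_of_one_le_right (by linarith) hCt
  have hXt : C * t ≤ X := by
    rw [hXe]
    exact le_mul_of_one_le_left (by linarith) hCs
  set q5 : ℝ := (s * t) ^ 2 * Real.sqrt (s * t) with hq5
  have hq50 : 0 ≤ q5 := by positivity
  have hd1 : X ≤ X ^ d ∨ d = 0 := by
    rcases Nat.eq_zero_or_pos d with h | h
    · exact Or.inr h
    · exact Or.inl (le_self_pow₀ hX1 (by omega))
  have hdpos : 0 < d := by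
    rw [hd, NumberField.Embeddings.card]
    exact Module.finrank_pos
  have hXd : X ≤ X ^ d := le_self_pow₀ hX1 (by omega)
  have h3 := h2 X hX1 (𝓞 K × 𝓞 K) T
    (fun x v => Sum.elim (fun φ => sz φ x.1) (fun φ => sz φ x.2) v)
    (fun x => (∏ φ, wt D s t x.1 x.2 φ) * (1 + ∏ φ, mn s t x.1 x.2 φ))
    (2 * C₁ ^ 2 * (8 * D * C ^ 4) ^ d * q5 ^ d) (by positivity) ?_ ?_
  · refine h3.trans (le_of_eq ?_)
    ring
  · intro x hx v
    obtain ⟨hp, hq, hBp, hBq⟩ := hT x hx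
    have hp' : ∀ φ, sz φ x.1 ≤ X := fun φ => (hBp φ).trans hXs
    have hq' : ∀ φ, sz φ x.2 ≤ X := fun φ => (hBq φ).trans hXt
    rcases v with φ | φ
    · exact ⟨sz_low hX1 hp hp' φ, (hp' φ).trans hXd⟩
    · exact ⟨sz_low hX1 hq hq' φ, (hq' φ).trans hXd⟩
  · intro η hη S' hS' hSη
    have hη1 : ∀ x ∈ S', ∀ φ, sz φ x.1 ≤ η (Sum.inl φ) ∧ η (Sum.inl φ) ≤ 2 * sz φ x.1 := fun x hx φ => hSη x hx (Sum.inl φ)
    have hη2 : ∀ x ∈ S', ∀ φ, sz φ x.2 ≤ η (Sum.inr φ) ∧ η (Sum.inr φ) ≤ 2 * sz φ x.2 := fun x hx φ => hSη x hx (Sum.inr φ)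
    have hV1 : 0 < ∏ φ : K →+* ℂ, η (Sum.inl φ) := Finset.prod_pos fun φ _ => hη _
    have hV2 : 0 < ∏ φ : K →+* ℂ, η (Sum.inr φ) := Finset.prod_pos fun φ _ => hη _
    have hni : ni (⊤ : Ideal (𝓞 K)) = 1 := by
      unfold ni
      rw [Ideal.absNorm_top, Nat.cast_one]
    have hc1 := h1 ⊤ top_ne_bot (fun φ => η (Sum.inl φ)) (fun φ => (hη _).le) (S'.image Prod.fst) (by
      intro p hp
      obtain ⟨x, hx, rfl⟩ := Finset.mem_image.1 hp
      exact ⟨(hT x (hS' hx)).1, trivial, fun φ => (hη1 x hx φ).1⟩)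
    have hc2 := h1 ⊤ top_ne_bot (fun φ => η (Sum.inr φ)) (fun φ => (hη _).le) (S'.image Prod.snd) (by
      intro p hp
      obtain ⟨x, hx, rfl⟩ := Finset.mem_image.1 hp
      exact ⟨(hT x (hS' hx)).2.1, trivial, fun φ => (hη2 x hx φ).1⟩)
    rw [hni, div_one] at hc1 hc2
    have hcard : (S'.card : ℝ) ≤ (C₁ * ∏ φ : K →+* ℂ, η (Sum.inl φ)) * (C₁ * ∏ φ : K →+* ℂ, η (Sum.inr φ)) := by
      have e1 : S' ⊆ (S'.image Prod.fst) ×ˢ (S'.image Prod.snd) := by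
        intro x hx
        exact Finset.mem_product.2 ⟨Finset.mem_image_of_mem _ hx, Finset.mem_image_of_mem _ hx⟩
      have e2 := Finset.card_le_card e1
      rw [Finset.card_product] at e2
      have e3 : (S'.card : ℝ) ≤ ((S'.image Prod.fst).card : ℝ) * ((S'.image Prod.snd).card : ℝ) := by exact_mod_cast e2
      exact e3.trans (mul_le_mul hc1 hc2 (Nat.cast_nonneg _) (by positivity))
    have hw : ∀ x ∈ S', (∏ φ, wt D s t x.1 x.2 φ) * (1 + ∏ φ, mn s t x.1 x.2 φ) ≤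
        2 * (8 * D * C ^ 4 * q5) ^ d / ((∏ φ : K →+* ℂ, η (Sum.inl φ)) * ∏ φ : K →+* ℂ, η (Sum.inr φ)) := by
      intro x hx
      obtain ⟨hp, hq, hBp, hBq⟩ := hT x (hS' hx)
      rw [le_div_iff₀ (mul_pos hV1 hV2)]
      have e1 : (∏ φ, wt D s t x.1 x.2 φ) * ((∏ φ : K →+* ℂ, η (Sum.inl φ)) * ∏ φ : K →+* ℂ, η (Sum.inr φ)) ≤
          (8 * D * C ^ 4 * q5) ^ d := by
        rw [← Finset.prod_mul_distrib, ← Finset.prod_mul_distrib, hd, ← Finset.card_univ, ← Finset.prod_const]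
        refine Finset.prod_le_prod (fun φ _ => mul_nonneg (wt_nonneg _ _ _ _ _ _) (mul_nonneg (hη _).le (hη _).le)) fun φ _ => ?_
        rw [mul_comm]
        exact loc1 hC hD hs ht (sz_pos φ hp) (sz_pos φ hq) (hη1 x hx φ).2 (hη2 x hx φ).2 (hη _) (hη _) (hBp φ) (hBq φ)
      have e2 : ((∏ φ, wt D s t x.1 x.2 φ) * ∏ φ, mn s t x.1 x.2 φ) *
          ((∏ φ : K →+* ℂ, η (Sum.inl φ)) * ∏ φ : K →+* ℂ, η (Sum.inr φ)) ≤ (8 * D * C ^ 4 * q5) ^ d := by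
        rw [← Finset.prod_mul_distrib, ← Finset.prod_mul_distrib, ← Finset.prod_mul_distrib, hd, ← Finset.card_univ,
          ← Finset.prod_const]
        refine Finset.prod_le_prod (fun φ _ => mul_nonneg (mul_nonneg (wt_nonneg _ _ _ _ _ _) (mn_nonneg hs ht _ _ _))
          (mul_nonneg (hη _).le (hη _).le)) fun φ _ => ?_
        rw [mul_comm]
        exact loc2 hC hD hs ht (sz_pos φ hp) (sz_pos φ hq) (hη1 x hx φ).2 (hη2 x hx φ).2 (hη _) (hη _) (hBp φ) (hBq φ)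
      calc _ = (∏ φ, wt D s t x.1 x.2 φ) * ((∏ φ : K →+* ℂ, η (Sum.inl φ)) * ∏ φ : K →+* ℂ, η (Sum.inr φ)) +
            ((∏ φ, wt D s t x.1 x.2 φ) * ∏ φ, mn s t x.1 x.2 φ) *
              ((∏ φ : K →+* ℂ, η (Sum.inl φ)) * ∏ φ : K →+* ℂ, η (Sum.inr φ)) := by ring
        _ ≤ _ := by linarith
    refine (Finset.sum_le_sum hw).trans ?_
    rw [Finset.sum_const, nsmul_eq_mul]
    have hnn : 0 ≤ 2 * (8 * D * C ^ 4 * q5) ^ d / ((∏ φ : K →+* ℂ, η (Sum.inl φ)) * ∏ φ : K →+* ℂ, η (Sum.inr φ)) := by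
      positivity
    refine (mul_le_mul_of_nonneg_right hcard hnn).trans (le_of_eq ?_)
    rw [mul_pow (8 * D * C ^ 4) q5 d]
    field_simp

end H57.EZ
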